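import Pool.Agent.Helper55.CF.Goals

noncomputable section
namespace Helper78CF
open CF55

/-- a binary form of positive degree has a non-trivial zero -/
theorem hom_zero (n : ℕ) (hn : 0 < n) (c : ℕ → ℂ) :
    ∃ s t : ℂ, (s ≠ 0 ∨ t ≠ 0) ∧ ∑ i ∈ Finset.range (n + 1), c i * s ^ i * t ^ (n - i) = 0 := by
  by_cases hc : c n = 0
  · refine ⟨1, 0, Or.inl one_ne_zero, ?_⟩
    apply Finset.sum_eq_zero
    intro i hi
    rw [Finset.mem_range] at hi
    by_cases h : i = n
    · subst h; simp [hc]
    · have : n - i ≠ 0 := by omega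
      simp [zero_pow this]
  · let p : Polynomial ℂ := ∑ i ∈ Finset.range (n + 1), Polynomial.C (c i) * Polynomial.X ^ i
    have hcoeff : p.coeff n = c n := by
      simp only [p, Polynomial.finset_sum_coeff, Polynomial.coeff_C_mul_X_pow]
      rw [Finset.sum_eq_single n]
      · simp
      · intro b _ hb; simp [Ne.symm hb]
      · intro h; simp at h
    have hdeg : p.degree ≠ 0 := by
      intro h
      have h2 : (n : WithBot ℕ) ≤ p.degree := Polynomial.le_degree_of_ne_zero (by rw [hcoeff]; exact hc)
      rw [h] at h2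
      have : n ≤ 0 := by exact_mod_cast h2
      omega
    obtain ⟨s, hs⟩ := IsAlgClosed.exists_root p hdeg
    refine ⟨s, 1, Or.inr one_ne_zero, ?_⟩
    have := hs
    simp only [Polynomial.IsRoot.def, p, Polynomial.eval_finset_sum, Polynomial.eval_mul,
      Polynomial.eval_C, Polynomial.eval_pow, Polynomial.eval_X] at this
    simpa using this

theorem plane (T : Tri) (u : V) (H : Submodule ℂ V) (hT : Sym T) (a b : V) (ha : a ∈ H) (hb : b ∈ H)
    (hab : ∀ x y : ℂ, x • a + y • b = 0 → x = 0 ∧ y = 0)
    (h1 : T u a a = 0) (h2 : T u a b = 0) (h3 : T u b b = 0) :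
    ∃ v ∈ H, v ≠ 0 ∧ T u v v = 0 ∧ T v v v = 0 := by
  obtain ⟨s, t, hst, h⟩ := hom_zero 3 (by norm_num)
    (fun i => if i = 3 then T a a a else if i = 2 then 3 * T a a b else if i = 1 then 3 * T a b b
      else T b b b)
  simp [Finset.sum_range_succ] at h
  refine ⟨s • a + t • b, H.add_mem (H.smul_mem _ ha) (H.smul_mem _ hb), ?_, ?_, ?_⟩
  · intro h0
    obtain ⟨hs, ht⟩ := hab s t h0
    rcases hst with h | h
    · exact h hs
    · exact h ht
  · have e1 : T u b a = T u a b := hT.s23 u b a
    simp only [map_add, map_smul, LinearMap.add_apply, LinearMap.smul_apply, smul_eq_mul, h1, h2, h3,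
      e1]
    ring
  · have e1 : T b a a = T a a b := by rw [hT.s12, hT.s23]
    have e2 : T a b a = T a a b := by rw [hT.s23]
    have e3 : T b a b = T a b b := by rw [hT.s12]
    have e4 : T b b a = T a b b := by rw [hT.s23, hT.s12]
    simp only [map_add, map_smul, LinearMap.add_apply, LinearMap.smul_apply, smul_eq_mul, e1, e2, e3,
      e4]
    linear_combination h

theorem exists_notMem (H : Submodule ℂ V) (h : 3 ≤ Module.finrank ℂ H) (a b : V) :
    ∃ g ∈ H, g ∉ Submodule.span ℂ {a, b} := by
  by_contra hcon
  push Not at hcon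
  have h1 : H ≤ Submodule.span ℂ {a, b} := hcon
  have h2 := Submodule.finrank_mono h1
  have h3 : Module.finrank ℂ (Submodule.span ℂ ({a, b} : Set V)) ≤ 2 := by
    have := finrank_span_finset_le_card (R := ℂ) ({a, b} : Finset V)
    have h4 : ({a, b} : Finset V).card ≤ 2 := Finset.card_le_two
    have h5 : ((({a, b} : Finset V) : Set V)) = {a, b} := by simp
    rw [h5] at this
    exact this.trans h4
  omega

theorem stmtCC : G_CC := by
  intro T u H hT hH
  have sym : ∀ x y, T u x y = T u y x := fun x y => hT.s23 u x y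
  -- isotropic vector in a plane
  have iso : ∀ a b : V, ∃ s t : ℂ, (s ≠ 0 ∨ t ≠ 0) ∧
      T u (s • a + t • b) (s • a + t • b) = 0 := by
    intro a b
    obtain ⟨s, t, hst, h⟩ := hom_zero 2 (by norm_num)
      (fun i => if i = 2 then T u a a else if i = 1 then 2 * T u a b else T u b b)
    simp [Finset.sum_range_succ] at h
    refine ⟨s, t, hst, ?_⟩
    simp only [map_add, map_smul, LinearMap.add_apply, LinearMap.smul_apply, smul_eq_mul, sym b a]
    linear_combination h
  obtain ⟨a, haH, ha⟩ := exists_notMem H hH 0 0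
  obtain ⟨b, hbH, hb⟩ := exists_notMem H hH a 0
  have indep2 : ∀ a b : V, a ≠ 0 → b ∉ Submodule.span ℂ {a, (0 : V)} → ∀ x y : ℂ,
      x • a + y • b = 0 → x = 0 ∧ y = 0 := by
    intro a b ha hb x y h
    have hy : y = 0 := by
      by_contra hy
      apply hb
      have : b = (-(y⁻¹ * x)) • a := by
        have h1 : y • b = -(x • a) := by rw [eq_neg_iff_add_eq_zero, add_comm]; exact h
        calc b = y⁻¹ • (y • b) := by rw [smul_smul, inv_mul_cancel₀ hy, one_smul]
          _ = _ := by rw [h1, smul_neg, smul_smul, neg_smul]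
      rw [this]
      exact Submodule.smul_mem _ _ (Submodule.subset_span (by simp))
    subst hy
    simp at h
    exact ⟨h.resolve_right ha, rfl⟩
  have ha0 : a ≠ 0 := by
    intro h; apply ha; rw [h]; exact Submodule.zero_mem _
  obtain ⟨s, t, hst, hf1⟩ := iso a b
  set f1 := s • a + t • b with hf1def
  have hf1H : f1 ∈ H := H.add_mem (H.smul_mem _ haH) (H.smul_mem _ hbH)
  have hf10 : f1 ≠ 0 := by
    intro h0
    obtain ⟨hs, ht⟩ := indep2 a b ha0 hb s t h0
    rcases hst with h | h
    · exact h hs
    · exact h ht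
  clear_value f1
  clear hst hf1def hb hbH b ha haH ha0 a s t
  by_cases hA : ∀ h ∈ H, T u f1 h = 0
  · obtain ⟨g1, hg1H, hg1⟩ := exists_notMem H hH f1 0
    obtain ⟨g2, hg2H, hg2⟩ := exists_notMem H hH f1 g1
    obtain ⟨s, t, hst, hf2⟩ := iso g1 g2
    refine plane T u H hT f1 (s • g1 + t • g2) hf1H
      (H.add_mem (H.smul_mem _ hg1H) (H.smul_mem _ hg2H)) ?_ hf1
      (hA _ (H.add_mem (H.smul_mem _ hg1H) (H.smul_mem _ hg2H))) hf2
    intro x y hxy
    have hyt : y * t = 0 := by
      by_contra hyt
      apply hg2
      have h1 : (y * t) • g2 = (-x) • f1 + (-(y * s)) • g1 := by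
        have : x • f1 + y • (s • g1 + t • g2) - (x • f1 + (y * s) • g1) = (y * t) • g2 := by
          rw [smul_add, smul_smul, smul_smul]; abel
        rw [← this, hxy]
        rw [neg_smul, neg_smul]; abel
      have h2 : g2 = (y * t)⁻¹ • ((-x) • f1 + (-(y * s)) • g1) := by
        rw [← h1, smul_smul, inv_mul_cancel₀ hyt, one_smul]
      rw [h2]
      exact Submodule.smul_mem _ _ (Submodule.add_mem _
        (Submodule.smul_mem _ _ (Submodule.subset_span (by simp)))
        (Submodule.smul_mem _ _ (Submodule.subset_span (by simp))))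
    have h3 : x • f1 + (y * s) • g1 = 0 := by
      have : x • f1 + y • (s • g1 + t • g2) = (x • f1 + (y * s) • g1) + (y * t) • g2 := by
        rw [smul_add, smul_smul, smul_smul]; abel
      rw [this, hyt, zero_smul, add_zero] at hxy
      exact hxy
    obtain ⟨hx, hys⟩ := indep2 f1 g1 hf10 hg1 _ _ h3
    refine ⟨hx, ?_⟩
    rcases hst with h | h
    · exact (mul_eq_zero.1 hys).resolve_right h
    · exact (mul_eq_zero.1 hyt).resolve_right h
  · push Not at hA
    obtain ⟨g, hgH, hg⟩ := hA
    set β := T u f1 g with hβ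
    set f2 : V := (1 / (2 * β)) • (g - (T u g g / (2 * β)) • f1) with hf2def
    have hf2H : f2 ∈ H := H.smul_mem _ (H.sub_mem hgH (H.smul_mem _ hf1H))
    have h12 : T u f1 f2 = 1 / 2 := by
      simp only [hf2def, map_sub, map_smul, smul_eq_mul, hf1, ← hβ]
      field_simp
      ring
    have h22 : T u f2 f2 = 0 := by
      simp only [hf2def, map_sub, map_smul, smul_eq_mul, LinearMap.sub_apply, LinearMap.smul_apply,
        hf1, ← hβ, sym g f1]
      field_simp
      ring
    clear_value f2
    have h21 : T u f2 f1 = 1 / 2 := by rw [sym, h12]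
    obtain ⟨g3, hg3H, hg3⟩ := exists_notMem H hH f1 f2
    set f3 : V := g3 - (2 * T u g3 f2) • f1 - (2 * T u g3 f1) • f2 with hf3def
    have hf3H : f3 ∈ H := H.sub_mem (H.sub_mem hg3H (H.smul_mem _ hf1H)) (H.smul_mem _ hf2H)
    have h31 : T u f3 f1 = 0 := by
      simp only [hf3def, map_sub, map_smul, smul_eq_mul, LinearMap.sub_apply, LinearMap.smul_apply,
        hf1, h21]
      ring
    have h32 : T u f3 f2 = 0 := by
      simp only [hf3def, map_sub, map_smul, smul_eq_mul, LinearMap.sub_apply, LinearMap.smul_apply,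
        h12, h22]
      ring
    have hf30 : f3 ≠ 0 := by
      intro h0
      apply hg3
      have : g3 = (2 * T u g3 f2) • f1 + (2 * T u g3 f1) • f2 := by
        rw [h0] at hf3def
        have h := hf3def.symm
        rw [sub_sub, sub_eq_zero] at h
        exact h
      rw [this]
      exact (Submodule.add_mem _
        (Submodule.smul_mem _ _ (Submodule.subset_span (by simp)))
        (Submodule.smul_mem _ _ (Submodule.subset_span (by simp))))
    clear_value f3
    have h13 : T u f1 f3 = 0 := by rw [sym, h31]
    have h23 : T u f2 f3 = 0 := by rw [sym, h32]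
    by_cases hc : T u f3 f3 = 0
    · refine plane T u H hT f1 f3 hf1H hf3H ?_ hf1 h13 hc
      intro x y hxy
      have hx : x = 0 := by
        have h := congrArg (fun v => T u f2 v) hxy
        simp only [map_add, map_smul, smul_eq_mul, h21, h23, map_zero] at h
        have h' : x * (1 / 2) = 0 := by linear_combination h
        simpa using h'
      subst hx
      simp at hxy
      exact ⟨rfl, hxy.resolve_right hf30⟩
    · obtain ⟨d, hd⟩ := IsAlgClosed.exists_pow_nat_eq (-(T u f3 f3)) (n := 2) (by norm_num)
      have hd0 : d ≠ 0 := by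
        rintro rfl
        apply hc
        have : -(T u f3 f3) = 0 := by rw [← hd]; simp
        simpa using this
      set k : V := (1 / d) • f3 with hk
      have hkH : k ∈ H := H.smul_mem _ hf3H
      have k1 : T u f1 k = 0 := by simp [hk, h13]
      have k2 : T u f2 k = 0 := by simp [hk, h23]
      have k1' : T u k f1 = 0 := by rw [sym, k1]
      have k2' : T u k f2 = 0 := by rw [sym, k2]
      have kk : T u k k = -1 := by
        simp only [hk, map_smul, smul_eq_mul, LinearMap.smul_apply]
        have : T u f3 f3 = -d ^ 2 := by rw [hd]; ring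
        rw [this]; field_simp
      clear_value k
      obtain ⟨s, t, hst, h⟩ := hom_zero 6 (by norm_num)
        (fun i => if i = 6 then T f1 f1 f1 else if i = 5 then 3 * T f1 f1 k
          else if i = 4 then 3 * T f1 f1 f2 + 3 * T f1 k k
          else if i = 3 then T k k k + 6 * T f1 k f2
          else if i = 2 then 3 * T f1 f2 f2 + 3 * T k k f2
          else if i = 1 then 3 * T k f2 f2 else T f2 f2 f2)
      simp [Finset.sum_range_succ] at h
      refine ⟨(s ^ 2) • f1 + (s * t) • k + (t ^ 2) • f2,
        H.add_mem (H.add_mem (H.smul_mem _ hf1H) (H.smul_mem _ hkH)) (H.smul_mem _ hf2H), ?_, ?_, ?_⟩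
      · intro h0
        have ht : t = 0 := by
          have h := congrArg (fun v => T u f1 v) h0
          simp only [map_add, map_smul, smul_eq_mul, hf1, k1, h12, map_zero] at h
          have h' : t ^ 2 = 0 := by linear_combination 2 * h
          simpa using h'
        have hs : s = 0 := by
          have h := congrArg (fun v => T u f2 v) h0
          simp only [map_add, map_smul, smul_eq_mul, h21, k2, h22, map_zero] at h
          have h' : s ^ 2 = 0 := by linear_combination 2 * h
          simpa using h'
        rcases hst with h | h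
        · exact h hs
        · exact h ht
      · simp only [map_add, map_smul, smul_eq_mul, LinearMap.add_apply, LinearMap.smul_apply, hf1, k1,
          h12, h21, k1', k2', kk, k2, h22]
        ring
      · have e1 : T f1 k f1 = T f1 f1 k := by rw [hT.s23]
        have e2 : T k f1 f1 = T f1 f1 k := by rw [hT.s12, hT.s23]
        have e3 : T f1 f2 f1 = T f1 f1 f2 := by rw [hT.s23]
        have e4 : T f2 f1 f1 = T f1 f1 f2 := by rw [hT.s12, hT.s23]
        have e5 : T k f1 k = T f1 k k := by rw [hT.s12]
        have e6 : T k k f1 = T f1 k k := by rw [hT.s23, hT.s12]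
        have e7 : T f1 f2 k = T f1 k f2 := by rw [hT.s23]
        have e8 : T k f1 f2 = T f1 k f2 := by rw [hT.s12]
        have e9 : T f2 f1 k = T f1 k f2 := by rw [hT.s12, hT.s23]
        have e10 : T k f2 f1 = T f1 k f2 := by rw [hT.s23, hT.s12]
        have e11 : T f2 k f1 = T f1 k f2 := by rw [hT.s12, hT.s23, hT.s12]
        have e12 : T f2 f1 f2 = T f1 f2 f2 := by rw [hT.s12]
        have e13 : T f2 f2 f1 = T f1 f2 f2 := by rw [hT.s23, hT.s12]
        have e14 : T k f2 k = T k k f2 := by rw [hT.s23]
        have e15 : T f2 k k = T k k f2 := by rw [hT.s12, hT.s23]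
        have e16 : T f2 k f2 = T k f2 f2 := by rw [hT.s12]
        have e17 : T f2 f2 k = T k f2 f2 := by rw [hT.s23, hT.s12]
        simp only [map_add, map_smul, smul_eq_mul, LinearMap.add_apply, LinearMap.smul_apply, e1, e2,
          e3, e4, e5, e6, e7, e8, e9, e10, e11, e12, e13, e14, e15, e16, e17]
        linear_combination h

end Helper78CF
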